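import Pool.Agent.Helper23.PL.SpecD
import Pool.Agent.Helper95.HH.RingWalk
import Pool.Agent.Helper95.HH.VolCmp

/-!
# PL-D3: a ball with one hub (`draw_p2`)

The ball of radius `ρ` at `x p` has at most `k2` branch vertices. There is a gap: a radius `σ ≤ ρ / 2` such that no branch
vertex has distance in `(σ, σ + Δ]`, `Δ = ρ / (2 (k2 + 1))`. The branch vertices at distance at most `σ` are moved to
the door `(y, hub p)` at the end of the bypass.
-/

set_option autoImplicit false

open Set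
open Pool.Agent.Helper83.OP Pool.Agent.Helper83.HR Pool.Agent.Helper93.HH Pool.Agent.Helper95.HH
open Pool.Agent.Helper23.PL

namespace Pool.Agent.Helper62.PL

/-! ## walks outside the hubs -/

open Classical in
/-- a walk of `H` between vertices which are not hubs gives a walk outside the hubs -/
theorem ring_cost {V : Type} [Finite V] (H : SimpleGraph V) (U : Set V) (ord : V → V → ℕ)
    (hord : IsOrd H U ord) (hU : ∀ u ∈ U, ∀ v ∈ U, ¬ H.Adj u v) (n : ℕ) :
    ∀ {u v : V} (_ : u ∉ U) (_ : v ∉ U) (P : H.Walk u v), P.length ≤ n →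
      ∃ W : (ringOut H U ord).Walk (Sum.inl u) (Sum.inl v),
        W.length ≤ P.length + (P.support.map (fun z => if z ∈ U then deg H z else 0)).sum := by
  induction n with
  | zero =>
    intro u v hu hv P hn
    cases P with
    | nil => exact ⟨SimpleGraph.Walk.nil, by simp⟩
    | cons h P' =>
      rw [SimpleGraph.Walk.length_cons] at hn
      omega
  | succ n ih =>
    intro u v hu hv P hn
    cases P with
    | nil => exact ⟨SimpleGraph.Walk.nil, by simp⟩
    | @cons _ w _ h P' =>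
      rw [SimpleGraph.Walk.length_cons] at hn
      by_cases hw : w ∈ U
      · cases P' with
        | nil => exact absurd hw hv
        | @cons _ w2 _ h' P2 =>
          rw [SimpleGraph.Walk.length_cons] at hn
          have hw2 : w2 ∉ U := fun hw2 => hU _ hw _ hw2 h'
          obtain ⟨W, hW⟩ := ih hw2 hv P2 (by omega)
          have key : ∃ S : (ringOut H U ord).Walk (Sum.inl u) (Sum.inl w2),
              S.length ≤ 2 + deg H w := by
            by_cases huw : u = w2
            · subst huw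
              exact ⟨SimpleGraph.Walk.nil, by simp⟩
            · have hP : (SimpleGraph.Walk.cons h
                  (SimpleGraph.Walk.cons h' SimpleGraph.Walk.nil)).IsPath := by
                simp [SimpleGraph.Walk.cons_isPath_iff, h.ne, h'.ne, huw]
              obtain ⟨S, hS⟩ := (ring_walk H U ord hord hU hu _ hP).1 hw2
              refine ⟨S, hS.trans ?_⟩
              have e1 : (if u ∈ U ∧ u ≠ w2 then deg H u else 0) = 0 := if_neg (fun h0 => hu h0.1)
              have e2 : (if w ∈ U ∧ w ≠ w2 then deg H w else 0) ≤ deg H w := by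
                split_ifs <;> omega
              have e3 : (if w2 ∈ U ∧ w2 ≠ w2 then deg H w2 else 0) = 0 :=
                if_neg (fun h0 => h0.2 rfl)
              simp only [SimpleGraph.Walk.length_cons, SimpleGraph.Walk.length_nil,
                SimpleGraph.Walk.support_cons, SimpleGraph.Walk.support_nil, List.map_cons,
                List.map_nil, List.sum_cons, List.sum_nil]
              rw [e1, e3]
              omega
          obtain ⟨S, hS⟩ := key
          refine ⟨S.append W, ?_⟩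
          rw [SimpleGraph.Walk.length_append]
          simp only [SimpleGraph.Walk.length_cons, SimpleGraph.Walk.support_cons, List.map_cons,
            List.sum_cons]
          rw [if_neg hu, if_pos hw]
          omega
      · obtain ⟨W, hW⟩ := ih hw hv P' (by omega)
        refine ⟨SimpleGraph.Walk.cons (ringOut_old h hu hw) W, ?_⟩
        simp only [SimpleGraph.Walk.length_cons, SimpleGraph.Walk.support_cons, List.map_cons,
          List.sum_cons]
        rw [if_neg hu]
        omega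

/-- a walk of `N` -/
theorem ring_N {V P Q : Type} (D : HD V P Q) (hD : D.Ok) {H : SimpleGraph V}
    (hN : ∀ u v, D.N.Adj u v → H.Adj u v) (ord : V → V → ℕ) {u v : V} (A : D.N.Walk u v) :
    ∃ W : (ringOut H D.U ord).Walk (Sum.inl u) (Sum.inl v), W.length = A.length := by
  induction A with
  | nil => exact ⟨SimpleGraph.Walk.nil, rfl⟩
  | cons h A ih =>
    obtain ⟨W, hW⟩ := ih
    exact ⟨SimpleGraph.Walk.cons
      (ringOut_old (hN _ _ h) (hD.N_U _ _ h) (hD.N_U _ _ h.symm)) W, by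
        rw [SimpleGraph.Walk.length_cons, SimpleGraph.Walk.length_cons, hW]⟩

/-- an edge of a pin is not an edge of `N` -/
theorem pin_not_N {V P Q : Type} [Finite V] {D : HD V P Q} (hD : D.Ok) {p : P} {u v : V}
    (h : D.N.Adj u v) : s(u, v) ∉ (D.w p).edges := by
  intro he
  have hu : u ∈ (D.w p).support := SimpleGraph.Walk.fst_mem_support_of_mem_edges _ he
  have hv : v ∈ (D.w p).support := SimpleGraph.Walk.snd_mem_support_of_mem_edges _ he
  have h1 : u = D.x p := by
    by_contra hcon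
    exact hD.w_N p u hu hcon (HD.VN_of_adj h)
  have h2 : v = D.x p := by
    by_contra hcon
    exact hD.w_N p v hv hcon (HD.VN_of_adj' h)
  exact h.ne (h1.trans h2.symm)

/-- the first edge of a path -/
theorem path_first {V : Type} {G : SimpleGraph V} {a b : V} (w : G.Walk a b) (hw : w.IsPath)
    (hl : 2 ≤ w.length) : ∃ z, s(a, z) ∈ w.edges ∧ z ∈ w.support ∧ z ≠ a ∧ z ≠ b := by
  cases w with
  | nil => simp at hl
  | @cons _ z _ h w' =>
    refine ⟨z, by simp, by simp, h.ne', ?_⟩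
    rintro rfl
    have h1 := ((SimpleGraph.Walk.cons_isPath_iff h w').1 hw).1
    have h2 := SimpleGraph.Walk.length_eq_zero_iff.2 (SimpleGraph.Walk.isPath_iff_nil.1 h1)
    rw [SimpleGraph.Walk.length_cons] at hl
    omega

/-- the first edge of a pin is on no other pin -/
theorem pin_edge {V P Q : Type} {D : HD V P Q} (hD : D.Ok) (p : P) :
    ∃ e ∈ (D.w p).edges, ∀ q, q ≠ p → e ∉ (D.w q).edges := by
  obtain ⟨z, h1, h2, h3, h4⟩ := path_first (D.w p) (hD.w_path p) (hD.r_pos.trans (hD.w_ge p))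
  refine ⟨_, h1, fun q hq he => hq ?_⟩
  have h5 : z ∈ (D.w q).support := SimpleGraph.Walk.snd_mem_support_of_mem_edges _ he
  exact (hD.w_disj p q z h2 h5 h3 h4).symm

/-- from the foot of a pin to the door of its hub -/
theorem ring_pin {V P Q : Type} [Finite V] (D : HD V P Q) (hD : D.Ok) (hG : GOk D) (e : Sym2 V)
    (ord : V → V → ℕ) (hord : IsOrd (D.G.deleteEdges {e}) D.U ord) (q : P)
    (he : e ∉ (D.w q).edges) : ∃ d : Dor (D.G.deleteEdges {e}) D.U, d.1.2 = D.hub q ∧
      ∃ W : (ringOut (D.G.deleteEdges {e}) D.U ord).Walk (Sum.inl (D.x q)) (Sum.inr d),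
        W.length ≤ (D.w q).length := by
  classical
  have hU : ∀ u ∈ D.U, ∀ v ∈ D.U, ¬ (D.G.deleteEdges {e}).Adj u v := fun u hu v hv h =>
    hub_nadj D hD hG u hu v hv (SimpleGraph.deleteEdges_le _ h)
  have h1 : ∀ f ∈ (D.w q).edges, f ∉ ({e} : Set (Sym2 V)) := by
    rintro f hf rfl
    exact he hf
  obtain ⟨d, hd, W, hW⟩ := (ring_walk _ D.U ord hord hU (hD.x_U q)
    ((D.w q).toDeleteEdges {e} h1) (SimpleGraph.Walk.IsPath.toDeleteEdges _ _ (hD.w_path q) h1)).2 (hD.hub_U q)
  refine ⟨d, hd, W, hW.trans ?_⟩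
  have h2 : ((D.w q).toDeleteEdges {e} h1).length = (D.w q).length :=
    SimpleGraph.Walk.length_transfer _ _
  have h3 : ((D.w q).toDeleteEdges {e} h1).support = (D.w q).support :=
    SimpleGraph.Walk.support_transfer _ _
  rw [h2, h3, List.sum_eq_zero, Nat.add_zero]
  intro x hx
  obtain ⟨z, hz, rfl⟩ := List.mem_map.1 hx
  refine if_neg ?_
  rintro ⟨h4, h5⟩
  exact hD.w_U q z hz h5 h4

/-- a walk of `G` without edges of the pin `p`, in the graph without an edge of `p`, outside the hubs -/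
theorem ring_rch {V P Q : Type} [Finite V] (D : HD V P Q) (hD : D.Ok) (hG : GOk D) (p : P)
    (e : Sym2 V) (he : e ∈ (D.w p).edges) (ord : V → V → ℕ)
    (hord : IsOrd (D.G.deleteEdges {e}) D.U ord) {t : ℕ} {u v : V} (hu : u ∉ D.U) (hv : v ∉ D.U)
    (h : Rch D (Fp D p) t u v) :
    ∃ W : (ringOut (D.G.deleteEdges {e}) D.U ord).Walk (Sum.inl u) (Sum.inl v), W.length ≤ t := by
  classical
  have hU : ∀ u ∈ D.U, ∀ v ∈ D.U, ¬ (D.G.deleteEdges {e}).Adj u v := fun u hu v hv h =>
    hub_nadj D hD hG u hu v hv (SimpleGraph.deleteEdges_le _ h)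
  obtain ⟨W, hW, hc⟩ := h
  have h1 : ∀ f ∈ W.edges, f ∉ ({e} : Set (Sym2 V)) := by
    rintro f hf rfl
    exact hW f hf he
  obtain ⟨W', hW'⟩ := ring_cost _ D.U ord hord hU _ hu hv (W.toDeleteEdges {e} h1) le_rfl
  refine ⟨W', hW'.trans (le_trans ?_ hc)⟩
  have h2 : (W.toDeleteEdges {e} h1).length = W.length := SimpleGraph.Walk.length_transfer _ _
  have h3 : (W.toDeleteEdges {e} h1).support = W.support := SimpleGraph.Walk.support_transfer _ _
  rw [h2, h3]
  unfold cw
  refine Nat.add_le_add_left (List.sum_le_sum fun z _ => ?_) _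
  by_cases hz : z ∈ D.U
  · rw [if_pos hz, if_pos hz]
    exact Set.ncard_le_ncard (fun w hw => SimpleGraph.deleteEdges_le _ hw) (Set.toFinite _)
  · rw [if_neg hz, if_neg hz]

/-! ## the gap -/

/-- few points at distance at most `(k2 + 1) Δ`: there is a gap -/
theorem exists_gap {V : Type} [Finite V] (N : SimpleGraph V) (S : Set V) (x : V) (k2 Δ : ℕ)
    (h : ({v | Nr N ((k2 + 1) * Δ) x v} ∩ S).ncard ≤ k2) :
    ∃ i ≤ k2, ∀ v ∈ S, Nr N ((i + 1) * Δ) x v → Nr N (i * Δ) x v := by
  classical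
  have : Nonempty V := ⟨x⟩
  by_contra hcon
  push Not at hcon
  choose! f hf using hcon
  have hinj : Set.InjOn f (Finset.range (k2 + 1) : Set ℕ) := by
    have key : ∀ i j, i ≤ k2 → j ≤ k2 → i < j → f i ≠ f j := by
      intro i j hi hj hij heq
      have h1 := (hf i hi).2.1
      rw [heq] at h1
      exact (hf j hj).2.2 (h1.mono (Nat.mul_le_mul_right _ hij))
    intro i hi j hj heq
    rw [Finset.mem_coe, Finset.mem_range] at hi hj
    rcases Nat.lt_trichotomy i j with h1 | h1 | h1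
    · exact absurd heq (key i j (by omega) (by omega) h1)
    · exact h1
    · exact absurd heq.symm (key j i (by omega) (by omega) h1)
  have h2 : (f '' (Finset.range (k2 + 1) : Set ℕ)).ncard = k2 + 1 := by
    rw [hinj.ncard_image, Set.ncard_coe_finset, Finset.card_range]
  have h3 : f '' (Finset.range (k2 + 1) : Set ℕ) ⊆ {v | Nr N ((k2 + 1) * Δ) x v} ∩ S := by
    rintro _ ⟨i, hi, rfl⟩
    rw [Finset.mem_coe, Finset.mem_range] at hi
    have h4 := hf i (by omega)
    exact ⟨h4.2.1.mono (Nat.mul_le_mul_right _ (by omega)), h4.1⟩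
  have h4 := Set.ncard_le_ncard h3 (Set.toFinite _)
  omega

private theorem p2_kpl {V : Type} {G : SimpleGraph V} {k k' : ℕ} (h : KPl k G) (hk : k ≤ k') :
    KPl k' G := by
  obtain ⟨pos, γ, hd, hc⟩ := h
  exact ⟨pos, γ, hd, fun e he => (hc e he).trans (by exact_mod_cast hk)⟩

/-- **PL-D3 (p2).** -/
theorem draw_p2 : ∃ c : ℕ, ∀ (V P Q : Type) [Finite V] [Finite P] [Finite Q] (D : HD V P Q)
    (k k2 : ℕ), D.Ok → GOk D → 1 ≤ k → 1 ≤ k2 →
    (∀ e ∈ D.G.edgeSet, KPl 1 (D.G.deleteEdges {e})) →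
    ∀ p ρ, 1 ≤ ρ → bv D (D.ball ρ (D.x p)) ≤ k2 → (∀ q, Pn D ρ (D.x p) q → D.hub q = D.hub p) →
    Byp D (Fp D p) (k * ρ) (D.x p) (D.hub p) → KPl (c * (D.Kh * D.r * k * k2) ^ c) D.G := by
  classical
  obtain ⟨c0, hc0⟩ := move
  refine ⟨c0 * 13 ^ 6 + 6, fun V P Q _ _ _ D k k2 hD hG hk hk2 hcrit p ρ hρ hbv hpn hbyp => ?_⟩
  -- numbers
  have hKr : 3 ≤ D.Kh * D.r := (hD.three p).trans (hD.dg_le _ (hD.x_U p))
  obtain ⟨X, hX⟩ : ∃ X, X = D.Kh * D.r * k * k2 := ⟨_, rfl⟩
  have hkk : 1 ≤ k * k2 := Nat.mul_pos hk hk2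
  have hX1 : D.Kh * D.r ≤ X := by
    rw [hX, Nat.mul_assoc]
    exact Nat.le_mul_of_pos_right _ hkk
  have hX2 : k * k2 ≤ X := by
    rw [hX, Nat.mul_assoc]
    exact Nat.le_mul_of_pos_left _ (by omega)
  have hX3 : k2 ≤ k * k2 := Nat.le_mul_of_pos_left _ hk
  rw [← hX]
  -- the gap
  obtain ⟨Δ, hΔ⟩ : ∃ Δ, Δ = ρ / (2 * (k2 + 1)) := ⟨_, rfl⟩
  have hΔ1 : 2 * ((k2 + 1) * Δ) ≤ ρ := by
    rw [hΔ, ← Nat.mul_assoc]
    exact Nat.mul_div_le _ _
  have hΔ2 : ρ < 2 * (k2 + 1) * (Δ + 1) := by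
    rw [hΔ]
    exact Nat.lt_mul_div_succ _ (by omega)
  obtain ⟨i, hi, hgap⟩ := exists_gap D.N (Vb D) (D.x p) k2 Δ (le_trans (Set.ncard_le_ncard
    (Set.inter_subset_inter_left _ fun v hv => hv.mono (by omega)) (Set.toFinite _)) hbv)
  obtain ⟨σ, hσ⟩ : ∃ σ, σ = i * Δ := ⟨_, rfl⟩
  rw [← hσ] at hgap
  have hσ1 : 2 * σ ≤ ρ := by
    have h1 : i * Δ ≤ (k2 + 1) * Δ := Nat.mul_le_mul_right _ (by omega)
    omega
  have hσ2 : (i + 1) * Δ = σ + Δ := by
    rw [hσ]
    ring
  rw [hσ2] at hgap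
  -- the core
  obtain ⟨C, hC⟩ : ∃ C : Set V, C = {v | Nr D.N σ (D.x p) v} ∩ Vb D := ⟨_, rfl⟩
  have hC1 : C.ncard ≤ k2 := by
    rw [hC]
    exact le_trans (Set.ncard_le_ncard
      (Set.inter_subset_inter_left _ fun v hv => hv.mono (by omega)) (Set.toFinite _)) hbv
  have hxC : D.x p ∈ C := by
    rw [hC]
    exact ⟨Nr.refl _ _ _, hD.three p⟩
  -- the edge
  obtain ⟨e, he, heq⟩ := pin_edge hD p
  have heG : e ∈ D.G.edgeSet := SimpleGraph.Walk.edges_subset_edgeSet _ he
  have hNH : ∀ u v, D.N.Adj u v → (D.G.deleteEdges {e}).Adj u v := by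
    intro u v h
    rw [SimpleGraph.deleteEdges_adj]
    refine ⟨hD.N_le h, ?_⟩
    intro h1
    rw [Set.mem_singleton_iff] at h1
    exact pin_not_N hD h (h1 ▸ he)
  -- the bypass
  obtain ⟨y, ⟨hay, hye⟩, hR⟩ := hbyp
  have hyU : y ∉ D.U := fun h => hub_nadj D hD hG _ (hD.hub_U p) _ h hay
  have hyH : (D.G.deleteEdges {e}).Adj y (D.hub p) := by
    rw [SimpleGraph.deleteEdges_adj]
    refine ⟨hay.symm, ?_⟩
    intro h1
    rw [Set.mem_singleton_iff, Sym2.eq_swap] at h1
    exact hye (by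
      show s(D.hub p, y) ∈ (D.w p).edges
      rw [h1]
      exact he)
  have hfin : KPl (c0 * (13 * X) ^ 6) D.G := by
    refine hc0 V P Q D p e (13 * X) C hD hG he (hcrit e heG) (by omega) (by omega) (by omega) hxC
      ?_ ?_
    · intro v hv
      rw [hC] at hv
      exact ⟨HD.VN_of_nr hv.1 (HD.x_VN p), hv.2⟩
    intro ord hord
    obtain ⟨d0, hd1, hd2⟩ : ∃ d : Dor (D.G.deleteEdges {e}) D.U, d.1.1 = y ∧ d.1.2 = D.hub p :=
      ⟨mkDor y (D.hub p) hyH (hD.hub_U p), rfl, rfl⟩
    have hd3 : (ringOut (D.G.deleteEdges {e}) D.U ord).Adj (Sum.inr d0) (Sum.inl y) := by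
      have h1 := ringOut_door (ord := ord) d0 (by rw [hd1]; exact hyU)
      rw [hd1] at h1
      exact h1.symm
    -- back from the door to the foot
    obtain ⟨R, hRl⟩ := ring_rch D hD hG p e he ord hord (hD.x_U p) hyU hR
    have hback : ∀ u, Nr D.N σ (D.x p) u →
        ∃ W : (ringOut (D.G.deleteEdges {e}) D.U ord).Walk (Sum.inr d0) (Sum.inl u),
          W.length ≤ (k + 2) * ρ := by
      intro u hu
      obtain ⟨A, hA⟩ := hu
      obtain ⟨A', hA'⟩ := ring_N D hD hNH ord A
      refine ⟨SimpleGraph.Walk.cons hd3 (R.reverse.append A'), ?_⟩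
      rw [SimpleGraph.Walk.length_cons, SimpleGraph.Walk.length_append,
        SimpleGraph.Walk.length_reverse, hA']
      have h1 : (k + 2) * ρ = k * ρ + 2 * ρ := by ring
      omega
    refine ⟨fun _ => Sum.inr d0, ?_, ?_, ?_, ?_⟩
    · intro v _ a _ h
      exact absurd h (by simp)
    · intro u _ v _ A _
      exact ⟨SimpleGraph.Walk.nil, by simp⟩
    · intro u hu v hv hvN hv3 A _ _
      rw [hC] at hu
      obtain ⟨W, hW⟩ := hback u hu.1
      obtain ⟨A', hA'⟩ := ring_N D hD hNH ord A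
      refine ⟨W.append A', ?_⟩
      rw [SimpleGraph.Walk.length_append, hA']
      -- the thread is long
      have h1 : Δ + 1 ≤ A.length := by
        by_contra hcon
        have h2 : Nr D.N (σ + A.length) (D.x p) v := hu.1.trans ⟨A, le_rfl⟩
        have h3 := hgap v hv3 (h2.mono (by omega))
        apply hv
        rw [hC]
        exact ⟨h3, hv3⟩
      have h4 : ρ ≤ 2 * (k2 + 1) * A.length :=
        hΔ2.le.trans (Nat.mul_le_mul_left _ h1)
      have h5 : (k + 2) * (2 * (k2 + 1)) + 1 ≤ 13 * X := by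
        nlinarith
      calc W.length + A.length ≤ (k + 2) * ρ + A.length := Nat.add_le_add_right hW _
        _ ≤ (k + 2) * (2 * (k2 + 1) * A.length) + A.length :=
          Nat.add_le_add_right (Nat.mul_le_mul_left _ h4) _
        _ = ((k + 2) * (2 * (k2 + 1)) + 1) * A.length := by ring
        _ ≤ 13 * X * A.length := Nat.mul_le_mul_right _ h5
    · intro q hq
      rw [hC] at hq
      by_cases hqp : D.hub q = D.hub p
      · exact ⟨d0, hd2.trans hqp.symm, SimpleGraph.Walk.nil, by simp⟩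
      · have hne : q ≠ p := by
          rintro rfl
          exact hqp rfl
        obtain ⟨W, hW⟩ := hback (D.x q) hq.1
        obtain ⟨d, hd, A', hA'⟩ := ring_pin D hD hG e ord hord q (heq q hne)
        refine ⟨d, hd, W.append A', ?_⟩
        rw [SimpleGraph.Walk.length_append]
        have h1 : ρ < σ + (D.w q).length := by
          by_contra hcon
          exact hqp (hpn q ⟨σ, hq.1, by omega⟩)
        have h4 : ρ ≤ 2 * (D.w q).length := by omega
        have h5 : (k + 2) * 2 + 1 ≤ 13 * X := by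
          nlinarith
        calc W.length + A'.length ≤ (k + 2) * ρ + (D.w q).length := Nat.add_le_add hW hA'
          _ ≤ (k + 2) * (2 * (D.w q).length) + (D.w q).length :=
            Nat.add_le_add_right (Nat.mul_le_mul_left _ h4) _
          _ = ((k + 2) * 2 + 1) * (D.w q).length := by ring
          _ ≤ 13 * X * (D.w q).length := Nat.mul_le_mul_right _ h5
  refine p2_kpl hfin ?_
  calc c0 * (13 * X) ^ 6 = c0 * 13 ^ 6 * X ^ 6 := by rw [mul_pow]; ring
    _ ≤ (c0 * 13 ^ 6 + 6) * X ^ (c0 * 13 ^ 6 + 6) :=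
      Nat.mul_le_mul (by omega) (Nat.pow_le_pow_right (by omega) (by omega))

end Pool.Agent.Helper62.PL
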